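import Pool.Agent.H223Z.Tsi.Main
import Pool.Agent.H223Z.Tsi.Exist

set_option autoImplicit false

namespace Pool.Agent.Results.MP_ebc7ea_an.Factorization

open Pool.Agent.H223Z.Tsi

universe u

/-- The unit vector basis of Tsirelson's space `T` has the factorization property. `T` is described
as in the problem: a Banach space with vectors `e k` spanning a dense subspace, biorthogonal
functionals `e' k`, whose norm on finitely supported sequences satisfies the implicit equation.
The first clause records that such a space exists. -/
theorem result :
    (∃ (X : Type) (_ : NormedAddCommGroup X) (_ : NormedSpace ℝ X) (_ : CompleteSpace X)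
      (e : ℕ+ → X) (e' : ℕ+ → X →L[ℝ] ℝ), IsTsirelson e e') ∧
    ∀ (X : Type u) [NormedAddCommGroup X] [NormedSpace ℝ X] [CompleteSpace X]
      (e : ℕ+ → X) (e' : ℕ+ → X →L[ℝ] ℝ), IsTsirelson e e' → FactorizationProperty e e' :=
  ⟨exists_isTsirelson, fun _ _ _ _ _ _ h => h.factorization⟩

end Pool.Agent.Results.MP_ebc7ea_an.Factorization
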